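import Pool.Agent.H77.KG.Targets

set_option autoImplicit false

open Set Matrix Pool.Agent.H77.BC Pool.Agent.H77.BD

namespace Pool.Agent.H49.KGDLB

/-- the rank of the Heisenberg group -/
theorem two_le {M : Type} (U : RU M) {l : ℕ} {C : Matrix (Fin l) (Fin l) ℤ} (hC : Cartan C)
    (hl : 2 ≤ l) {F Γ : Type} [Field F] [IsAlgClosed F] [Cod M F] [DF U F] [Group Γ] [Cod M Γ]
    [DG U Γ] {x : Root C → F → Γ} {τ : (Fin l → Fˣ) →* Γ} (hCD : CD x τ)
    (hx : ∀ β, DFn U (x β)) (k : ℕ) (hk : IsK C k) :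
    2 * ((k + 1) * U.R (univ : Set F)) ≤ U.R (univ : Set Γ) := by
  classical
  have hRKB := Pool.Agent.H77.BCP.a_RKB U
  have hRNV := @Pool.Agent.H77.BCP.a_RNV M U F _ _ _
  have i0 : Fin l := ⟨0, by omega⟩
  let γ : Root C := sr hC i0
  obtain ⟨X, Y, hX, hY, hHS⟩ := Pool.Agent.H77.BDS.a_HXY U hC hCD hx k hk γ
  obtain ⟨hinj, ⟨Q, hQ⟩, -⟩ := Pool.Agent.H77.BDS.a_HEA hHS
  set f := U.R (univ : Set F) with hf
  let V := (Fin k → F) × (Fin k → F)
  let q : V × F → Γ := fun q => X q.1.1 * Y q.1.2 * x γ q.2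
  have hq : DFn U q := by
    refine DFn_gmul (DFn_gmul (DFn_comp hX ?_) (DFn_comp hY ?_)) (DFn_comp (hx γ) DFn_snd)
    · exact DFn_comp (g := fun p : V => p.1) DFn_fst DFn_fst
    · exact DFn_comp (g := fun p : V => p.2) DFn_snd DFn_fst
  have hFk : U.R (univ : Set (Fin k → F)) = k * f := (hRNV k k).1
  have hV : U.R (univ : Set V) = k * f + k * f := by
    rw [← univ_prod_univ, hRKB.prod Ful.full Ful.full univ_nonempty univ_nonempty, hFk]
  have hVF : U.R (univ : Set (V × F)) = k * f + k * f + f := by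
    rw [← univ_prod_univ, hRKB.prod Ful.full Ful.full univ_nonempty univ_nonempty, hV]
  have hQD : U.D (Q : Set Γ) := by
    rw [hQ, ← image_univ]
    exact DFn_image hq Ful.full
  have hQR : U.R (Q : Set Γ) = k * f + k * f + f := by
    rw [hQ, ← image_univ, ← hVF]
    exact hRKB.inj Ful.full hq univ_nonempty (hinj.injOn)
  have hQT : Q ≠ ⊤ := by
    intro htop
    obtain ⟨β, hβ⟩ := Pool.Agent.H77.BDS.a_NBR hC hl γ
    have hβ' : ip C β.1 γ.1 = -1 := by rw [ip_comm hC]; exact hβ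
    have h1 : x β 1 ∈ (Q : Set Γ) := by rw [htop]; trivial
    rw [hQ] at h1
    obtain ⟨⟨⟨a, b⟩, z⟩, h1⟩ := h1
    have hZZ : ∀ s t, x γ s * x γ t = x γ t * x γ s := by
      intro s t
      rw [← hHS.hZ, ← hHS.hZ, add_comm]
    have h2 : x β 1 * x γ 1 = x γ 1 * x β 1 := by
      rw [← h1]
      show X a * Y b * x γ z * x γ 1 = x γ 1 * (X a * Y b * x γ z)
      rw [mul_assoc (X a * Y b), hZZ z 1, ← mul_assoc (X a * Y b), mul_assoc (X a) (Y b) (x γ 1),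
        hHS.hYZ b 1, ← mul_assoc (X a), hHS.hXZ a 1]
      simp only [mul_assoc]
    have h3 := hCD.com β γ (ad hC β γ hβ') (ad_val hC β γ hβ') 1 1
    rw [h2] at h3
    have h4 : x (ad hC β γ hβ') ((eps C β.1 γ.1 : F) * 1 * 1) = 1 := (mul_eq_right.1 h3.symm)
    have h5 : x (ad hC β γ hβ') 0 = 1 := by
      have := hCD.add (ad hC β γ hβ') 0 0
      rw [add_zero] at this
      exact (mul_eq_left.1 this.symm)
    have h6 := hCD.inj _ _ _ (h4.trans h5.symm)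
    rw [mul_one, mul_one] at h6
    exact eps_ne_zero_F _ _ h6
  have hlow := Pool.Agent.H77.BDS.a_LOW U hC hl hCD hx k hk Q hQD hQT
  rw [hQR] at hlow
  have h7 : (k + 1) * f = k * f + f := by ring
  rw [h7] at hlow ⊢
  have h8 : 0 ≤ k * f := Nat.zero_le _
  omega

end Pool.Agent.H49.KGDLB

namespace Pool.Agent.H77.KG

theorem pf_DLB : T_DLB := by
  intro M U L _ _ _ F _ _ l C hC hBr hiso
  obtain ⟨e0⟩ := hiso
  have hl : 2 ≤ l := by
    obtain ⟨b, i, j, m, hij, -, -, hbi, hbj, -⟩ := hBr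
    have h1 : (i : ℕ) ≠ (j : ℕ) := fun h => hij (Fin.ext h)
    have h2 := i.2
    have h3 := j.2
    omega
  obtain ⟨k0, hk0⟩ := Pool.Agent.H77.BDS.a_CNT hC
  haveI : Infinite F := IsAlgClosed.instInfinite
  obtain ⟨x0, τ0, hCD0⟩ := Pool.Agent.H77.BDS.a_CDC hC hl (F := F)
  have hCD := Pool.Agent.H77.BDS.a_CDT e0.symm x0 τ0 hCD0
  obtain ⟨c, hDF, hx⟩ := Pool.Agent.H77.BDS.a_FLD U hC hl hCD
  letI := c
  haveI := hDF
  obtain ⟨hf1, -, -⟩ := Pool.Agent.H77.BCP.a_RKS U (K := F)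
  have hupr := Pool.Agent.H77.BDS.a_UPR U hC hCD hx
  have hlk := Pool.Agent.H77.BDS.a_BRC hC hBr k0 hk0
  have h2 := Pool.Agent.H49.KGDLB.two_le U hC hl hCD hx k0 hk0
  set f : ℕ := U.R (univ : Set F) with hf
  refine ⟨(k0 + 1) * f, ?_, h2, ?_, Or.inl ?_⟩
  · exact Nat.mul_pos (Nat.succ_pos k0) hf1
  · intro H hH hne
    exact Pool.Agent.H77.BDS.a_LOW U hC hl hCD hx k0 hk0 H hH hne
  · rw [hk0.2] at hupr
    have h3 : (l * (k0 + 2) + l) * f ≤ (k0 * (k0 + 3)) * f := by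
      refine Nat.mul_le_mul_right _ ?_
      calc l * (k0 + 2) + l = l * (k0 + 3) := by ring
        _ ≤ k0 * (k0 + 3) := Nat.mul_le_mul_right _ hlk
    have h4 : (k0 * (k0 + 3)) * f < ((k0 + 1) * (k0 + 2)) * f := by
      refine Nat.mul_lt_mul_of_pos_right ?_ hf1
      nlinarith
    have h5 : ((k0 + 1) * (k0 + 2)) * f ≤ (k0 + 1) * f * ((k0 + 1) * f + 1) := by
      have h6 : k0 + 2 ≤ (k0 + 1) * f + 1 := by nlinarith
      calc ((k0 + 1) * (k0 + 2)) * f = (k0 + 1) * f * (k0 + 2) := by ring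
        _ ≤ _ := Nat.mul_le_mul_left _ h6
    exact lt_of_le_of_lt (hupr.trans h3) (lt_of_lt_of_le h4 h5)

end Pool.Agent.H77.KG
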