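import Pool.Agent.H77.KG.Targets

set_option autoImplicit false

open Set Pool.Agent.H77.BC Pool.Agent.H77.BD

namespace Pool.Agent.H77.KG

theorem pf_EXC : T_EXC := by
  intro M M' M'' U U' U'' e e' h h'
  have key : ∀ (ι : Type) (A : Set (ι → M)), (fun x => (e' ∘ e) ∘ x) '' A =
      (fun y => e' ∘ y) '' ((fun x => e ∘ x) '' A) := by
    intro ι A
    rw [image_image]; rfl
  refine ⟨h'.inj.comp h.inj, ?_, ?_⟩
  · intro ι _ A
    rw [key, h'.defn, h.defn]
  · intro ι _ A hA hne
    rw [key, h'.rank ι _ ((h.defn ι A).2 hA) (hne.image _), h.rank ι A hA hne]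

end Pool.Agent.H77.KG
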