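import Pool.Agent.H77.KG.Targets

set_option autoImplicit false

open Set Pool.Agent.H77.BC Pool.Agent.H77.BD
open Matrix

namespace Pool.Agent.H49.KGNTF

variable {F : Type} [Field F] {n : ℕ}

theorem sc (t : F) : Matrix.scalar (Fin (n + 1)) t =
    t • (1 : Matrix (Fin (n + 1)) (Fin (n + 1)) F) := by
  ext i j
  rw [Matrix.scalar_apply, Matrix.diagonal_apply, Matrix.smul_apply, Matrix.one_apply]
  by_cases h : i = j
  · simp [h]
  · simp [h]

/-- the scaled matrix -/
theorem exB [IsAlgClosed F] (A : Matrix (Fin (n + 1)) (Fin (n + 1)) F) (t : F)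
    (h : (A + Matrix.scalar (Fin (n + 1)) t).det ≠ 0) :
    ∃ (z : F) (B : SpecialLinearGroup (Fin (n + 1)) F), z ≠ 0 ∧
      B.val = z • (A + Matrix.scalar (Fin (n + 1)) t) := by
  obtain ⟨w, hw⟩ := IsAlgClosed.exists_pow_nat_eq ((A + Matrix.scalar (Fin (n + 1)) t).det)
    (Nat.succ_pos n)
  have hw0 : w ≠ 0 := by
    rintro rfl
    rw [zero_pow (Nat.succ_ne_zero n)] at hw
    exact h hw.symm
  have hd : (w⁻¹ • (A + Matrix.scalar (Fin (n + 1)) t)).det = 1 := by
    rw [Matrix.det_smul, Fintype.card_fin, ← hw, inv_pow]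
    exact inv_mul_cancel₀ (pow_ne_zero _ hw0)
  exact ⟨w⁻¹, ⟨_, hd⟩, inv_ne_zero hw0, rfl⟩

theorem inf_good [Infinite F] (A : Matrix (Fin (n + 1)) (Fin (n + 1)) F) :
    {t : F | (A + Matrix.scalar (Fin (n + 1)) t).det ≠ 0}.Infinite := by
  have hfin : {t : F | (A + Matrix.scalar (Fin (n + 1)) t).det = 0}.Finite := by
    have h0 : (-A).charpoly ≠ 0 := (Matrix.charpoly_monic (-A)).ne_zero
    refine (Polynomial.rootSet_finite (-A).charpoly F).subset fun t ht => ?_
    rw [Polynomial.mem_rootSet]
    refine ⟨h0, ?_⟩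
    rw [Polynomial.coe_aeval_eq_eval, Matrix.eval_charpoly]
    have h1 : Matrix.scalar (Fin (n + 1)) t - -A = A + Matrix.scalar (Fin (n + 1)) t := by
      rw [sub_neg_eq_add]
      exact add_comm _ _
    rw [h1]; exact ht
  exact hfin.infinite_compl

end Pool.Agent.H49.KGNTF

namespace Pool.Agent.H77.KG

open Pool.Agent.H49.KGNTF

theorem pf_NTF : T_NTF := by
  intro G S F _ _ _ _ n hN k y hfin g hg
  classical
  have hinf : Infinite F := IsAlgClosed.instInfinite
  obtain ⟨φ, b, hact⟩ := hN
  by_contra hg1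
  obtain ⟨A, hA⟩ := QuotientGroup.mk_surjective (φ g)
  -- the vectors
  have hmul : ∀ (B : SpecialLinearGroup (Fin (n + 1)) F) (v : Fin (n + 1) → F), v ≠ 0 →
      B.val *ᵥ v ≠ 0 := by
    intro B v hv h
    apply hv
    have h1 : (B⁻¹ * B).val *ᵥ v = 0 := by
      have h2 : (B⁻¹ * B).val = (B⁻¹).val * B.val := rfl
      rw [h2, ← Matrix.mulVec_mulVec, h, Matrix.mulVec_zero]
    rw [inv_mul_cancel] at h1
    have h3 : (1 : SpecialLinearGroup (Fin (n + 1)) F).val = 1 := rfl
    rw [h3, Matrix.one_mulVec] at h1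
    exact h1
  have hv0 : ∀ i, (b (y i)).rep ≠ 0 := fun i => (b (y i)).rep_nonzero
  have hmk : ∀ i, b (y i) = Projectivization.mk F (b (y i)).rep (hv0 i) := fun i =>
    ((b (y i)).mk_rep).symm
  have hc : ∀ i, ∃ c : F, A.val *ᵥ (b (y i)).rep = c • (b (y i)).rep := by
    intro i
    have h1 := hact g A hA.symm (y i) _ (hv0 i) (hmul A _ (hv0 i)) (hmk i)
    rw [hg i] at h1
    have h2 : Projectivization.mk F (A.val *ᵥ (b (y i)).rep) (hmul A _ (hv0 i)) =
        Projectivization.mk F (b (y i)).rep (hv0 i) := by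
      rw [← h1]; exact hmk i
    obtain ⟨c, hc⟩ := (Projectivization.mk_eq_mk_iff' F _ _ _ _).1 h2
    exact ⟨c, hc.symm⟩
  choose c hc using hc
  -- A is not scalar
  have hns : ∀ r : F, A.val ≠ Matrix.scalar (Fin (n + 1)) r := by
    intro r hr
    apply hg1
    have h1 : A ∈ Subgroup.center (SpecialLinearGroup (Fin (n + 1)) F) := by
      rw [Matrix.SpecialLinearGroup.mem_center_iff]
      refine ⟨r, ?_, hr.symm⟩
      have h2 := A.2
      rw [hr] at h2
      have h3 : (Matrix.scalar (Fin (n + 1)) r).det = r ^ Fintype.card (Fin (n + 1)) := by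
        rw [sc, Matrix.det_smul, Matrix.det_one, mul_one]
      rw [← h3]; exact h2
    have h4 : φ g = 1 := by
      rw [← hA]; exact (QuotientGroup.eq_one_iff A).2 h1
    exact φ.injective (h4.trans (map_one φ).symm)
  -- the infinite family
  have hex : ∀ t : F, (A.val + Matrix.scalar (Fin (n + 1)) t).det ≠ 0 →
      ∃ (z : F) (B : SpecialLinearGroup (Fin (n + 1)) F), z ≠ 0 ∧
        B.val = z • (A.val + Matrix.scalar (Fin (n + 1)) t) := fun t h => exB A.val t h
  choose! z B hz hB using hex
  refine (Set.infinite_of_injOn_mapsTo (f := fun t => φ.symm (QuotientGroup.mk (B t)))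
    (s := {t : F | (A.val + Matrix.scalar (Fin (n + 1)) t).det ≠ 0}) ?_ ?_ (inf_good A.val)) hfin
  · intro t ht t' ht' h
    have h1 : (QuotientGroup.mk (B t) : ProjectiveSpecialLinearGroup (Fin (n + 1)) F) =
        QuotientGroup.mk (B t') := φ.symm.injective h
    have h2 := QuotientGroup.eq.1 h1
    rw [Matrix.SpecialLinearGroup.mem_center_iff] at h2
    obtain ⟨r, -, hr⟩ := h2
    have h3 : (B t').val = (B t).val * Matrix.scalar (Fin (n + 1)) r := by
      rw [hr]
      have h4 : (B t * ((B t)⁻¹ * B t')).val = (B t).val * ((B t)⁻¹ * B t').val := rfl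
      have h5 : B t * ((B t)⁻¹ * B t') = B t' := by group
      rw [h5] at h4
      exact h4
    rw [hB t ht, hB t' ht'] at h3
    have hz' := hz t' ht'
    -- A + t' = c (A + t)
    have h6 : ∀ i j, (A.val i j + if i = j then t' else 0) =
        ((z t')⁻¹ * z t * r) * (A.val i j + if i = j then t else 0) := by
      intro i j
      have h7 := congrFun (congrFun h3 i) j
      simp only [sc, Matrix.smul_apply, Matrix.add_apply, Matrix.one_apply,
        smul_eq_mul, Matrix.mul_smul, Matrix.mul_one, mul_ite, mul_one, mul_zero] at h7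
      have h8 : z t' * (A.val i j + if i = j then t' else 0) =
          r * (z t * (A.val i j + if i = j then t else 0)) := h7
      have h9 : (A.val i j + if i = j then t' else 0) =
          (z t')⁻¹ * (z t' * (A.val i j + if i = j then t' else 0)) := by
        rw [← mul_assoc, inv_mul_cancel₀ hz', one_mul]
      rw [h9, h8]; ring
    set q := (z t')⁻¹ * z t * r with hq
    by_cases hq1 : q = 1
    · have h10 := h6 0 0
      rw [hq1, one_mul, if_pos rfl, if_pos rfl] at h10
      exact (add_left_cancel h10).symm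
    · exfalso
      have hq2 : 1 - q ≠ 0 := sub_ne_zero.2 (Ne.symm hq1)
      apply hns ((1 - q)⁻¹ * (q * t - t'))
      ext i j
      have h11 := h6 i j
      rw [sc, Matrix.smul_apply, Matrix.one_apply, smul_eq_mul]
      by_cases hij : i = j
      · simp only [if_pos hij] at h11 ⊢
        have h12 : (1 - q) * A.val i j = q * t - t' := by linear_combination h11
        rw [← h12, ← mul_assoc, inv_mul_cancel₀ hq2, one_mul, mul_one]
      · simp only [if_neg hij, add_zero] at h11 ⊢
        have h12 : (1 - q) * A.val i j = 0 := by linear_combination h11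
        rw [mul_zero]
        exact (mul_eq_zero.1 h12).resolve_left hq2
  · intro t ht i
    apply b.injective
    have h1 := hact (φ.symm (QuotientGroup.mk (B t))) (B t) (φ.apply_symm_apply _) (y i) _
      (hv0 i) (hmul (B t) _ (hv0 i)) (hmk i)
    rw [h1]
    have h2 : Projectivization.mk F ((B t).val *ᵥ (b (y i)).rep) (hmul (B t) _ (hv0 i)) =
        Projectivization.mk F (b (y i)).rep (hv0 i) := by
      rw [Projectivization.mk_eq_mk_iff']
      refine ⟨z t * (c i + t), ?_⟩
      rw [hB t ht, Matrix.smul_mulVec, Matrix.add_mulVec, hc i, sc,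
        Matrix.smul_mulVec, Matrix.one_mulVec, ← add_smul, smul_smul]
    rw [h2]; exact (hmk i).symm

end Pool.Agent.H77.KG
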