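import Pool.Agent.H77.KG.Targets
import Pool.Agent.H74.BCP.BGN
import Mathlib.LinearAlgebra.Projectivization.PSL.PSL2

set_option autoImplicit false

open Set Pool.Agent.H77.BC Pool.Agent.H77.BD
open Matrix Matrix.SpecialLinearGroup
open scoped LinearAlgebra.Projectivization commutatorElement

namespace Pool.Agent.H49.KGSMA

variable {F : Type} [Field F] {m : ℕ}

theorem conj_transvection {i j : Fin m} (hij : i ≠ j) (a : F) (ha : a ≠ 0) (b : F) :
    (diag2n hij a ha : SpecialLinearGroup (Fin m) F) * SpecialLinearGroup.transvection hij b =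
      SpecialLinearGroup.transvection hij (a ^ 2 * b) * diag2n hij a ha := by
  apply Subtype.ext
  show diagonal (fun k ↦ if k = i then a else if k = j then a⁻¹ else 1) *
    ((1 : Matrix (Fin m) (Fin m) F) + single i j b) =
    ((1 : Matrix (Fin m) (Fin m) F) + single i j (a ^ 2 * b)) *
    diagonal (fun k ↦ if k = i then a else if k = j then a⁻¹ else 1)
  ext k l
  rw [Matrix.diagonal_mul, Matrix.mul_diagonal]
  simp only [Matrix.add_apply, Matrix.one_apply, Matrix.single_apply]
  by_cases hk : k = i
  · by_cases hl : l = j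
    · subst hk; subst hl
      simp only [if_true, if_neg hij, if_neg hij.symm, and_self, zero_add]
      field_simp
    · subst hk
      by_cases hl2 : k = l
      · subst hl2
        simp [Ne.symm hij]
      · simp [hl2, Ne.symm hl, Ne.symm hl2]
  · by_cases hl2 : k = l
    · subst hl2
      simp [hk, Ne.symm hk]
    · simp [hl2, Ne.symm hk]

theorem transvection_mem_comm {a : F} (ha : a ≠ 0) (hasq : a ^ 2 ≠ 1) {i j : Fin m}
    (hij : i ≠ j) (c : F) : (SpecialLinearGroup.transvection hij c : SpecialLinearGroup (Fin m) F) ∈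
      commutator (SpecialLinearGroup (Fin m) F) := by
  have hb : a ^ 2 - 1 ≠ 0 := sub_ne_zero_of_ne hasq
  set b : F := c / (a ^ 2 - 1) with hbdef
  have h1 : ⁅(diag2n hij a ha : SpecialLinearGroup (Fin m) F),
      SpecialLinearGroup.transvection hij b⁆ = SpecialLinearGroup.transvection hij c := by
    rw [commutatorElement_def, conj_transvection hij a ha b, mul_assoc _ _ (diag2n hij a ha)⁻¹,
      mul_inv_cancel, mul_one, SpecialLinearGroup.transvection_inv]
    have h2 : a ^ 2 * b + -b = c := by
      rw [hbdef]; field_simp; ring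
    rw [← SpecialLinearGroup.transvection_add, h2]
  rw [← h1]
  exact Subgroup.commutator_mem_commutator (Subgroup.mem_top _) (Subgroup.mem_top _)

theorem gen_top (H : Subgroup (SpecialLinearGroup (Fin m) F))
    (h : ∀ (i j : Fin m) (hij : i ≠ j) (c : F), SpecialLinearGroup.transvection hij c ∈ H) :
    H = ⊤ := by
  refine le_antisymm le_top fun A _ => ?_
  obtain ⟨N, hN⟩ := Pool.Agent.H74.BCP.pf_BGN F m
  obtain ⟨L, -, hL⟩ := hN A.1 A.2
  have h2 : A = (L.map TransvectionStruct.toSpecialLinearGroup).prod := by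
    apply Subtype.ext
    rw [← hL]
    show _ = coeMonoidHom (L.map TransvectionStruct.toSpecialLinearGroup).prod
    rw [map_list_prod, List.map_map]
    rfl
  rw [h2]
  refine Subgroup.list_prod_mem _ fun x hx => ?_
  obtain ⟨t, -, rfl⟩ := List.mem_map.1 hx
  exact h t.i t.j t.hij t.c

theorem sl_comm {a : F} (ha : a ≠ 0) (hasq : a ^ 2 ≠ 1) :
    commutator (SpecialLinearGroup (Fin m) F) = ⊤ :=
  gen_top _ fun _ _ hij c => transvection_mem_comm ha hasq hij c

theorem iSup_lineStab_top :
    (⨆ p : ℙ F (Fin m → F), lineStab p.submodule) =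
      (⊤ : Subgroup (SpecialLinearGroup (Fin m) F)) := by
  refine gen_top _ fun i j hij c => ?_
  have h1 := SL2Gen.transvection_mem_lineStab (F := F) hij c
  have h0 : (Pi.single i (1 : F) : Fin m → F) ≠ 0 := Pi.single_ne_zero_iff.2 one_ne_zero
  have h2 : Submodule.span F {(Pi.single i (1 : F) : Fin m → F)} =
      (Projectivization.mk F (Pi.single i (1 : F) : Fin m → F) h0).submodule :=
    (Projectivization.submodule_mk (K := F) _ h0).symm
  rw [h2] at h1
  exact Subgroup.mem_iSup_of_mem _ h1

theorem iSup_iwasawaT_top : iSup (PSL.iwasawaT (F := F) (ι := Fin m)) = ⊤ := by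
  have step1 : iSup (PSL.iwasawaT (F := F) (ι := Fin m)) =
      Subgroup.map (QuotientGroup.mk' (Subgroup.center (Matrix.SpecialLinearGroup (Fin m) F)))
        (⨆ p : ℙ F (Fin m → F),
          Matrix.SpecialLinearGroup.lineStab (F := F) (ι := Fin m) p.submodule) := by
    rw [Subgroup.map_iSup]
  rw [step1, iSup_lineStab_top]
  exact Subgroup.map_top_of_surjective _ (QuotientGroup.mk'_surjective _)

open MulAction

noncomputable def iwa : IwasawaStructure (Matrix.ProjectiveSpecialLinearGroup (Fin m) F)
    (ℙ F (Fin m → F)) where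
  T := PSL.iwasawaT
  is_comm p := by
    have hSL : IsMulCommutative (lineStab (F := F) (ι := Fin m) p.submodule) := by
      rw [← Projectivization.mk_rep p, Projectivization.submodule_mk]
      exact lineStab_isMulCommutative_of_span p.rep p.rep_nonzero
    exact Subgroup.map_isMulCommutative _ _
  is_conj g p := by
    obtain ⟨g_SL, rfl⟩ := QuotientGroup.mk_surjective g
    rw [Matrix.ProjectiveSpecialLinearGroup.smul_proj_mk]
    change Subgroup.map _ _ = _
    rw [PSL.smul_submodule, Matrix.SpecialLinearGroup.lineStab_smul,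
      PSL.iwasawaT_map_conj]
  is_generator := iSup_iwasawaT_top

end Pool.Agent.H49.KGSMA

namespace Pool.Agent.H77.KG

theorem pf_SMA : T_SMA := by
  intro F _ _ m hm
  have hnt : Nontrivial (Fin m) := Fin.nontrivial_iff_two_le.2 hm
  have hinf : Infinite F := IsAlgClosed.instInfinite
  classical
  obtain ⟨a, ha⟩ := Infinite.exists_notMem_finset ({0, 1, -1} : Finset F)
  simp only [Finset.mem_insert, Finset.mem_singleton, not_or] at ha
  obtain ⟨ha0, ha1, ha2⟩ := ha
  have hasq : a ^ 2 ≠ 1 := by
    intro h
    rw [sq] at h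
    rcases mul_self_eq_one_iff.1 h with h | h
    · exact ha1 h
    · exact ha2 h
  have hp1 : Group.IsPerfect (Matrix.SpecialLinearGroup (Fin m) F) :=
    ⟨Pool.Agent.H49.KGSMA.sl_comm ha0 hasq⟩
  have hp2 : Group.IsPerfect (Matrix.ProjectiveSpecialLinearGroup (Fin m) F) := inferInstance
  have hc : commutator (Matrix.ProjectiveSpecialLinearGroup (Fin m) F) = ⊤ :=
    hp2.commutator_eq_top
  have hN : Nontrivial (Matrix.ProjectiveSpecialLinearGroup (Fin m) F) := inferInstance
  refine ⟨MulAction.IwasawaStructure.isSimpleGroup hc Pool.Agent.H49.KGSMA.iwa inferInstance, ?_⟩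
  by_contra hcon
  push Not at hcon
  have hb : commutator (Matrix.ProjectiveSpecialLinearGroup (Fin m) F) = ⊥ := by
    rw [eq_bot_iff, commutator_def, Subgroup.commutator_le]
    intro x _ y _
    rw [Subgroup.mem_bot, commutatorElement_eq_one_iff_mul_comm]
    exact hcon x y
  rw [hc] at hb
  exact top_ne_bot hb

end Pool.Agent.H77.KG
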